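import Pool.Agent.Helper12.ST.Main

/-! Families of tuples: the same shift for many members. -/

set_option autoImplicit false

open Finset Filter Topology

namespace Pool.Agent.Helper12.ST

open Pool.Agent.Helper12.CS (pz)
open Pool.Agent.H373R2.T7 (Admissible)

lemma NT_sum {J : Type} (H : ℕ) (e : J → ℕ) (P : ℕ → Prop) [DecidablePred P] (hP : ∀ h, P h ↔ ∀ j, (h + e j).Prime) :
    (NT H e : ℝ) = ∑ h ∈ Icc 1 H, if P h then (1 : ℝ) else 0 := by
  rw [← Finset.sum_filter, sum_const, nsmul_eq_mul, mul_one]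
  unfold NT
  congr 2
  ext h
  simp only [mem_filter, hP]

/-- many shifts which work for the expected number of members of a family of tuples -/
theorem mainK (k A : ℕ) (hk : 2 ≤ k) (c1 : ℝ) (hc1 : 0 < c1) : ∃ c : ℝ, 0 < c ∧ ∃ M : ℕ, ∀ᶠ H : ℕ in atTop,
    ∀ (ι : Type) (T : Finset ι) (a : ι → Fin k → ℕ) (F : ℕ),
    (∀ t ∈ T, Function.Injective (a t) ∧ ∀ i, a t i ≤ H) → (∀ i v, #{t ∈ T | a t i = v} ≤ F) →
    (∀ i j, i ≠ j → ∀ v, #{t ∈ T | Nat.dist (a t i) (a t j) = v} ≤ F) → (F : ℝ) * H ≤ #T * Real.log H ^ A →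
    T.Nonempty → c1 * #T * H / Real.log H ^ k ≤ ∑ t ∈ T, (NT H (a t) : ℝ) →
    c * H / Real.log (Real.log (Real.log H)) ^ M ≤
      #{h ∈ Icc 1 H | c * #T / Real.log H ^ k ≤ (#{t ∈ T | ∀ j, (h + a t j).Prime} : ℝ)} := by
  classical
  obtain ⟨C, hC, M, h2⟩ := secondK k A hk
  refine ⟨min (c1 / 2) (c1 ^ 2 / (4 * C)), by positivity, M, ?_⟩
  filter_upwards [h2, ev2 k A] with H h2 ⟨hl3, hl1, hbig⟩
  intro ι T a F hT ha hd hFT hne h1
  set L := Real.log (H : ℝ) with hL
  set W := Real.log (Real.log L) with hW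
  have hL0 : 0 < L := by linarith
  have hH0 : (0 : ℝ) < H := by
    have : 0 < 2 * ((k : ℝ) ^ 2 + 1) * L ^ (A + k) := by positivity
    linarith
  have hT0 : (0 : ℝ) < #T := by exact_mod_cast hne.card_pos
  set f : ℕ → ℝ := fun h => ∑ t ∈ T, if ∀ j, (h + a t j).Prime then (1 : ℝ) else 0 with hf
  have hfc : ∀ h, f h = (#{t ∈ T | ∀ j, (h + a t j).Prime} : ℝ) := by
    intro h
    simp only [hf]
    rw [← Finset.sum_filter, sum_const, nsmul_eq_mul, mul_one]
  have g1 : c1 * #T * H / L ^ k ≤ ∑ h ∈ Icc 1 H, f h := by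
    refine h1.trans (le_of_eq ?_)
    simp only [hf]
    rw [sum_comm]
    apply sum_congr rfl
    intro t _
    exact NT_sum H (a t) (fun h => ∀ j, (h + a t j).Prime) (fun _ => Iff.rfl)
  have g2 : ∑ h ∈ Icc 1 H, f h ^ 2 ≤ C * H * #T ^ 2 * W ^ M / L ^ (2 * k) := by
    refine le_trans (le_of_eq ?_) (h2 ι T a F hT ha hd hFT)
    have e1 : ∀ h, f h ^ 2 = ∑ t ∈ T, ∑ t' ∈ T,
        if (∀ j, (h + a t j).Prime) ∧ ∀ j, (h + a t' j).Prime then (1 : ℝ) else 0 := by
      intro h
      rw [sq]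
      simp only [hf]
      rw [sum_mul_sum]
      apply sum_congr rfl
      intro t _
      apply sum_congr rfl
      intro t' _
      by_cases k1 : ∀ j, (h + a t j).Prime
      · by_cases k2 : ∀ j, (h + a t' j).Prime
        · rw [if_pos k1, if_pos k2, if_pos ⟨k1, k2⟩, one_mul]
        · rw [if_neg k2, mul_zero, if_neg (fun h => k2 h.2)]
      · rw [if_neg k1, zero_mul, if_neg (fun h => k1 h.1)]
    simp only [e1]
    rw [sum_comm]
    apply sum_congr rfl
    intro t _
    rw [sum_comm]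
    apply sum_congr rfl
    intro t' _
    unfold NT2
    refine (NT_sum H (Sum.elim (a t) (a t')) (fun h => (∀ j, (h + a t j).Prime) ∧ ∀ j, (h + a t' j).Prime) ?_).symm
    intro h
    rw [Sum.forall]
    simp only [Sum.elim_inl, Sum.elim_inr]
  set θ := c1 / 2 * #T / L ^ k with hθ
  have g3 := pz (Icc 1 H) f (c1 * #T * H / L ^ k) _ θ g1 g2 (by positivity) (by
    rw [Nat.card_Icc, Nat.add_sub_cancel, hθ]
    apply le_of_eq
    ring) (by positivity)
  have hWM : 0 < W ^ M := by positivity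
  have g4 : c1 ^ 2 / (4 * C) * H / W ^ M ≤ #{h ∈ Icc 1 H | θ ≤ f h} := by
    rw [div_le_iff₀ hWM]
    have e1 : 0 < 4 * (C * H * #T ^ 2 / L ^ (2 * k)) := by positivity
    refine le_of_mul_le_mul_right ?_ e1
    calc c1 ^ 2 / (4 * C) * H * (4 * (C * H * #T ^ 2 / L ^ (2 * k))) = (c1 * #T * H / L ^ k) ^ 2 := by
          rw [show 2 * k = k + k by ring, pow_add]
          field_simp
      _ ≤ 4 * (#{h ∈ Icc 1 H | θ ≤ f h} * (C * H * #T ^ 2 * W ^ M / L ^ (2 * k))) := g3
      _ = _ := by ring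
  calc min (c1 / 2) (c1 ^ 2 / (4 * C)) * H / W ^ M ≤ c1 ^ 2 / (4 * C) * H / W ^ M := by
        gcongr
        exact min_le_right _ _
    _ ≤ #{h ∈ Icc 1 H | θ ≤ f h} := g4
    _ ≤ _ := by
        norm_cast
        apply card_le_card
        intro h hh
        rw [mem_filter] at hh ⊢
        refine ⟨hh.1, ?_⟩
        rw [← hfc h]
        refine le_trans ?_ hh.2
        rw [hθ]
        gcongr
        exact min_le_left _ _

/-- the first moment -/
theorem firstK (r A : ℕ) (hr : 1 ≤ r) : ∃ c : ℝ, 0 < c ∧ ∀ᶠ H : ℕ in atTop, ∀ (ι : Type) (T : Finset ι)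
    (a : ι → Fin (r + 1) → ℕ) (K : ℕ),
    (∀ t ∈ T, StrictMono (a t) ∧ (∀ i, a t i ≤ H) ∧ ∀ p : ℕ, p.Prime → ∃ c : ℕ, ∀ i, ¬ p ∣ c + a t i) →
    (∀ d : Fin r → ℕ, #{t ∈ T | ∀ i, a t i.succ - a t 0 = d i} ≤ K) → (K : ℝ) * H ^ r ≤ #T * Real.log H ^ A →
    c * #T * H / Real.log H ^ (r + 1) ≤ ∑ t ∈ T, (NT H (a t) : ℝ) := by
  classical
  obtain ⟨c, hc, hw⟩ := windowR r (A + 1) hr
  refine ⟨c / 2, by positivity, ?_⟩
  have hlogt : Tendsto (fun x : ℕ => Real.log (x : ℝ)) atTop atTop :=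
    Real.tendsto_log_atTop.comp tendsto_natCast_atTop_atTop
  filter_upwards [hw, hlogt.eventually_ge_atTop 2] with H hH hL2
  intro ι T a K hT hK hHT
  set L := Real.log (H : ℝ) with hL
  have hL0 : 0 < L := by linarith
  set dd : ι → Fin r → ℕ := fun t i => a t i.succ - a t 0 with hdd
  set B := {d ∈ Fintype.piFinset (fun _ : Fin r => Icc 1 H) | Admissible (fun i => (d i : ℤ)) ∧
      ¬ ∀ a ≤ H, c * (H / L ^ (r + 1)) ≤ (Wn d a H : ℝ)} with hB
  set Tb := {t ∈ T | dd t ∈ B} with hTb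
  have h1 : (#Tb : ℝ) ≤ #T / 2 := by
    have e1 : #Tb ≤ K * #B := by
      apply Finset.card_le_mul_card_image_of_maps_to (f := dd) (fun t ht => (mem_filter.1 ht).2)
      intro d _
      refine le_trans (card_le_card ?_) (hK d)
      intro t ht
      rw [mem_filter] at ht ⊢
      exact ⟨(mem_filter.1 ht.1).1, fun i => congrFun ht.2 i⟩
    have e2 : (#Tb : ℝ) ≤ K * #B := by exact_mod_cast e1
    calc (#Tb : ℝ) ≤ K * #B := e2
      _ ≤ K * ((H : ℝ) ^ r / L ^ (A + 1)) := mul_le_mul_of_nonneg_left hH (Nat.cast_nonneg _)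
      _ = K * (H : ℝ) ^ r / L ^ (A + 1) := by ring
      _ ≤ #T * L ^ A / L ^ (A + 1) := by gcongr
      _ = #T / L := by
          rw [pow_succ]
          field_simp
      _ ≤ #T / 2 := div_le_div_of_nonneg_left (Nat.cast_nonneg _) (by norm_num) hL2
  set Tg := {t ∈ T | ¬ dd t ∈ B} with hTg
  have h2 : (#T : ℝ) / 2 ≤ #Tg := by
    have h3 : #Tb + #Tg = #T := card_filter_add_card_filter_not _
    have h4 : (#Tb : ℝ) + #Tg = #T := by exact_mod_cast h3
    linarith
  have h3 : ∀ t ∈ Tg, c * (H / L ^ (r + 1)) ≤ (NT H (a t) : ℝ) := by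
    intro t ht
    obtain ⟨ht1, ht2⟩ := mem_filter.1 ht
    obtain ⟨k1, k2, k3⟩ := hT t ht1
    have hlt : ∀ i : Fin r, a t 0 < a t i.succ := fun i => k1 (Fin.succ_pos i)
    have hbox : dd t ∈ Fintype.piFinset (fun _ : Fin r => Icc 1 H) := by
      rw [Fintype.mem_piFinset]
      intro i
      have := hlt i
      have := k2 i.succ
      simp only [hdd, mem_Icc]
      omega
    have hadm : Admissible (fun i => (dd t i : ℤ)) := by
      intro p hp
      obtain ⟨c, hc⟩ := k3 p hp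
      refine ⟨(c : ℤ) + a t 0, ?_, fun i => ?_⟩
      · have := hc 0
        intro h
        apply this
        exact_mod_cast h
      · have := hc i.succ
        intro h
        apply this
        have e : ((c : ℤ) + a t 0) + (dd t i : ℤ) = ((c + a t i.succ : ℕ) : ℤ) := by
          simp only [hdd]
          rw [Nat.cast_sub (hlt i).le]
          push_cast
          ring
        rw [e] at h
        exact_mod_cast h
    have hwin : c * (H / L ^ (r + 1)) ≤ (Wn (dd t) (a t 0) H : ℝ) := by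
      by_contra hcon
      apply ht2
      rw [hB, mem_filter]
      exact ⟨hbox, hadm, fun hall => hcon (hall (a t 0) (k2 0))⟩
    refine hwin.trans ?_
    norm_cast
    unfold Wn NT
    apply card_le_card_of_injOn (fun p => p - a t 0)
    · intro p hp
      rw [Finset.mem_coe, mem_filter, mem_Ioc] at hp
      obtain ⟨⟨p1, p2⟩, p3, p4⟩ := hp
      simp only [Finset.mem_coe, mem_NT, mem_Icc]
      refine ⟨by omega, fun j => ?_⟩
      refine Fin.cases ?_ (fun i => ?_) j
      · rw [show p - a t 0 + a t 0 = p by omega]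
        exact p3
      · have := p4 i
        have := hlt i
        simp only [hdd] at p4
        rw [show p - a t 0 + a t i.succ = p + (a t i.succ - a t 0) by omega]
        exact p4 i
    · intro p hp q hq e
      rw [Finset.mem_coe, mem_filter, mem_Ioc] at hp hq
      simp only at e
      omega
  have h0 : 0 ≤ c * (H / L ^ (r + 1)) := by positivity
  calc c / 2 * #T * H / L ^ (r + 1) = (#T / 2) * (c * (H / L ^ (r + 1))) := by ring
    _ ≤ #Tg * (c * (H / L ^ (r + 1))) := mul_le_mul_of_nonneg_right h2 h0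
    _ = ∑ t ∈ Tg, c * (H / L ^ (r + 1)) := by rw [sum_const, nsmul_eq_mul]
    _ ≤ ∑ t ∈ Tg, (NT H (a t) : ℝ) := sum_le_sum h3
    _ ≤ ∑ t ∈ T, (NT H (a t) : ℝ) :=
        sum_le_sum_of_subset_of_nonneg (filter_subset _ _) (fun _ _ _ => Nat.cast_nonneg _)

/-- the fibres of the differences -/
lemma diff_fib (k x K : ℕ) (ι : Type) (T : Finset ι) (a : ι → Fin (k + 2) → ℕ)
    (hT : ∀ t ∈ T, StrictMono (a t) ∧ ∀ i, a t i ≤ x)
    (hK : ∀ d : Fin (k + 1) → ℕ, #{t ∈ T | ∀ i, a t i.succ - a t 0 = d i} ≤ K) :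
    ∀ i j, i < j → ∀ v, #{t ∈ T | a t j - a t i = v} ≤ K * x ^ k := by
  classical
  intro i j hij v
  obtain ⟨j', rfl⟩ : ∃ j' : Fin (k + 1), j = j'.succ :=
    ⟨j.pred (by rintro rfl; exact absurd hij (by simp)), by simp⟩
  set g : ι → Fin k → ℕ := fun t l => a t (j'.succAbove l).succ - a t 0 with hg
  have h1 : #{t ∈ T | a t j'.succ - a t i = v} ≤ K * #(Fintype.piFinset (fun _ : Fin k => Icc 1 x)) := by
    apply Finset.card_le_mul_card_image_of_maps_to (f := g)
    · intro t ht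
      obtain ⟨k1, k2⟩ := hT t (mem_filter.1 ht).1
      rw [Fintype.mem_piFinset]
      intro l
      have h2 : a t 0 < a t (j'.succAbove l).succ := k1 (Fin.succ_pos _)
      have h3 := k2 (j'.succAbove l).succ
      simp only [hg, mem_Icc]
      omega
    · intro b _
      by_cases hne : ∃ t₀ ∈ {t ∈ T | a t j'.succ - a t i = v}, g t₀ = b
      · obtain ⟨t₀, ht₀, hb⟩ := hne
        refine le_trans (card_le_card ?_) (hK (fun l => a t₀ l.succ - a t₀ 0))
        intro t ht
        rw [mem_filter] at ht ht₀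
        obtain ⟨⟨ht1, ht2⟩, ht3⟩ := ht |>.imp (fun h => mem_filter.1 h) id
        rw [mem_filter]
        refine ⟨ht1, ?_⟩
        have hoff : ∀ l : Fin (k + 1), l ≠ j' → a t l.succ - a t 0 = a t₀ l.succ - a t₀ 0 := by
          intro l hl
          obtain ⟨m, rfl⟩ := Fin.exists_succAbove_eq hl
          have := congrFun (ht3.trans hb.symm) m
          simpa only [hg] using this
        have hj : a t j'.succ - a t 0 = a t₀ j'.succ - a t₀ 0 := by
          obtain ⟨k1, -⟩ := hT t ht1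
          obtain ⟨k1', -⟩ := hT t₀ ht₀.1
          have h4 := k1 hij
          have h4' := k1' hij
          have h5 := ht₀.2
          rcases Fin.eq_zero_or_eq_succ i with h0 | ⟨i', rfl⟩
          · rw [h0] at ht2 h5
            omega
          · have h6 := hoff i' (by
              intro h
              rw [h] at hij
              exact lt_irrefl _ hij)
            have h7 : a t 0 < a t i'.succ := k1 (Fin.succ_pos _)
            have h7' : a t₀ 0 < a t₀ i'.succ := k1' (Fin.succ_pos _)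
            omega
        intro l
        by_cases hl : l = j'
        · rw [hl]
          exact hj
        · exact hoff l hl
      · have : {t ∈ {t ∈ T | a t j'.succ - a t i = v} | g t = b} = ∅ := by
          rw [filter_eq_empty_iff]
          intro t ht h
          exact hne ⟨t, ht, h⟩
        rw [this]
        simp
  refine h1.trans (le_of_eq ?_)
  rw [Fintype.card_piFinset, prod_const, card_univ, Fintype.card_fin, Nat.card_Icc, Nat.add_sub_cancel]

/-- **Families of tuples: the same shift for many members.** -/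
theorem tuples (k A : ℕ) : ∃ c : ℝ, 0 < c ∧ ∃ D : ℕ, ∀ᶠ x : ℕ in atTop, ∀ (ι : Type) (T : Finset ι)
    (a : ι → Fin (k + 2) → ℕ) (K : ℕ), 1 ≤ K →
    (∀ t ∈ T, StrictMono (a t) ∧ (∀ i, a t i ≤ x) ∧ ∀ p : ℕ, p.Prime → ∃ c : ℕ, ∀ i, ¬ p ∣ c + a t i) →
    (∀ i v, #{t ∈ T | a t i = v} ≤ K * x ^ k) →
    (∀ d : Fin (k + 1) → ℕ, #{t ∈ T | ∀ i, a t i.succ - a t 0 = d i} ≤ K) →
    (K : ℝ) * x ^ (k + 1) ≤ #T * Real.log x ^ A →
    c * x / Real.log (Real.log (Real.log x)) ^ D ≤
      #{n ∈ Icc 1 x | c * #T / Real.log x ^ (k + 2) ≤ (#{t ∈ T | ∀ j, (n + a t j).Prime} : ℝ)} := by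
  classical
  obtain ⟨c1, hc1, h1⟩ := firstK (k + 1) A (by omega)
  obtain ⟨c, hc, M, h2⟩ := mainK (k + 2) A (by omega) c1 hc1
  refine ⟨c, hc, M, ?_⟩
  filter_upwards [h1, h2, eventually_ge_atTop 1] with x h1 h2 hx
  intro ι T a K hK hT ha hd hKT
  have hx0 : (0 : ℝ) < x := by exact_mod_cast hx
  have hK0 : (0 : ℝ) < K := by exact_mod_cast hK
  refine h2 ι T a (K * x ^ k) (fun t ht => ⟨(hT t ht).1.injective, (hT t ht).2.1⟩) ha ?_ ?_ ?_ ?_
  · have h3 := diff_fib k x K ι T a (fun t ht => ⟨(hT t ht).1, (hT t ht).2.1⟩) hd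
    intro i j hij v
    rcases lt_or_gt_of_ne hij with h | h
    · refine le_trans (le_of_eq ?_) (h3 i j h v)
      congr 1
      apply filter_congr
      intro t ht
      rw [Nat.dist_eq_sub_of_le ((hT t ht).1 h).le]
    · refine le_trans (le_of_eq ?_) (h3 j i h v)
      congr 1
      apply filter_congr
      intro t ht
      rw [Nat.dist_eq_sub_of_le_right ((hT t ht).1 h).le]
  · push_cast
    calc (K : ℝ) * x ^ k * x = K * x ^ (k + 1) := by ring
      _ ≤ _ := hKT
  · by_contra hcon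
    rw [not_nonempty_iff_eq_empty] at hcon
    rw [hcon] at hKT
    have : (0 : ℝ) < K * x ^ (k + 1) := by positivity
    simp only [card_empty, Nat.cast_zero, zero_mul] at hKT
    linarith
  · exact h1 ι T a K hT hd hKT

end Pool.Agent.Helper12.ST
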