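import Pool.Agent.Helper12.CS.Tb

/-! Powers of the singular factor over sparse families with large fibres. -/

set_option autoImplicit false

open Finset Filter Topology

namespace Pool.Agent.Helper12.ST

open Pool.Agent.H197R2.PG
open Pool.Agent.H646 (rat)
open Pool.Agent.Helper12.CS (gg_nonneg rat_nonneg' rat_le_gg)

/-- The average of a power of the singular factor over a sparse family. -/
theorem momF (d : ℕ) (hd : 1 ≤ d) : ∃ C : ℝ, 1 ≤ C ∧ ∀ (k Y F : ℕ) (ι : Type) (T : Finset ι) (φ : ι → ℕ)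
    (E : ℝ), 3 ≤ k → (∀ t ∈ T, 1 ≤ φ t ∧ φ t ≤ Y) → (∀ v, #(T.filter (fun t => φ t = v)) ≤ F) →
    0 ≤ E → (F : ℝ) * Y ≤ E ^ k * #T →
    ∑ t ∈ T, gg (φ t) ^ d ≤ E * (C * Real.log k) ^ d * #T := by
  classical
  obtain ⟨C, hC, hE⟩ := euler_le
  have hlogd : 0 ≤ Real.log d := Real.log_natCast_nonneg d
  refine ⟨C * (1 + Real.log d), by nlinarith, ?_⟩
  intro k Y F ι T φ E hk hφ hfib hE0 hYE
  have hk3 : (3 : ℝ) ≤ k := by exact_mod_cast hk
  have hlogk : 1 ≤ Real.log k := by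
    rw [Real.le_log_iff_exp_le (by linarith)]
    have := Real.exp_one_lt_d9
    linarith
  set X := ∑ t ∈ T, gg (φ t) ^ d with hX
  have hK0 : (0 : ℝ) ≤ (#T : ℝ) := Nat.cast_nonneg _
  obtain ⟨m, rfl⟩ : ∃ m, k = m + 1 := ⟨k - 1, by omega⟩
  have h1 : X ^ (m + 1) ≤ (#T : ℝ) ^ m * ∑ t ∈ T, (gg (φ t) ^ d) ^ (m + 1) :=
    pow_sum_le_card_mul_sum_pow (fun x _ => pow_nonneg (gg_nonneg _) d) m
  set D : ℕ := d * (m + 1) with hD
  have h3 : ∑ t ∈ T, (gg (φ t) ^ d) ^ (m + 1) ≤ F * ∑ h ∈ Icc 1 Y, gg h ^ D := by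
    have e1 : ∑ t ∈ T, (gg (φ t) ^ d) ^ (m + 1) = ∑ t ∈ T, (fun h : ℕ => gg h ^ D) (φ t) := by
      apply Finset.sum_congr rfl
      intro t _
      rw [← pow_mul]
    rw [e1, ← Finset.sum_fiberwise_of_maps_to (t := Icc 1 Y) (g := φ) (fun t ht => mem_Icc.2 (hφ t ht)),
      Finset.mul_sum]
    apply Finset.sum_le_sum
    intro v _
    calc ∑ t ∈ T with φ t = v, (fun h : ℕ => gg h ^ D) (φ t)
        = ∑ t ∈ T with φ t = v, gg v ^ D := by
          apply Finset.sum_congr rfl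
          intro t ht
          simp only [(mem_filter.1 ht).2]
      _ = #(T.filter (fun t => φ t = v)) * gg v ^ D := by rw [sum_const, nsmul_eq_mul]
      _ ≤ F * gg v ^ D := by
          apply mul_le_mul_of_nonneg_right _ (pow_nonneg (gg_nonneg v) _)
          exact_mod_cast hfib v
  have hD3 : 3 ≤ D := by
    rw [hD]
    calc 3 ≤ m + 1 := hk
      _ ≤ d * (m + 1) := Nat.le_mul_of_pos_left _ hd
  have h6 : ∑ h ∈ Icc 1 Y, gg h ^ D ≤ Y * (C * Real.log (D : ℕ)) ^ D :=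
    (moment_le D Y).trans (mul_le_mul_of_nonneg_left (hE D Y hD3) (Nat.cast_nonneg _))
  set W : ℝ := C * Real.log (D : ℕ) with hWdef
  have hlogD0 : 0 ≤ Real.log (D : ℕ) := Real.log_natCast_nonneg D
  have hW0 : 0 ≤ W := by positivity
  have h7 : X ^ (m + 1) ≤ (E * W ^ d * (#T : ℝ)) ^ (m + 1) := by
    calc X ^ (m + 1) ≤ (#T : ℝ) ^ m * ∑ t ∈ T, (gg (φ t) ^ d) ^ (m + 1) := h1
      _ ≤ (#T : ℝ) ^ m * (F * (Y * W ^ D)) := by
          apply mul_le_mul_of_nonneg_left _ (by positivity)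
          exact h3.trans (mul_le_mul_of_nonneg_left h6 (Nat.cast_nonneg _))
      _ = (#T : ℝ) ^ m * (W ^ D * (F * Y)) := by ring
      _ ≤ (#T : ℝ) ^ m * (W ^ D * (E ^ (m + 1) * #T)) := by gcongr
      _ = (E * W ^ d * (#T : ℝ)) ^ (m + 1) := by
          rw [hD, pow_mul]
          simp only [mul_pow]
          ring
  have h8 : X ≤ E * W ^ d * (#T : ℝ) := le_of_pow_le_pow_left₀ (by omega) (by positivity) h7
  refine h8.trans ?_
  have h9 : W ≤ C * (1 + Real.log d) * Real.log ((m + 1 : ℕ) : ℝ) := by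
    rw [hWdef, hD]
    push_cast
    rw [Real.log_mul (by positivity) (by positivity)]
    push_cast at hlogk
    have h10 : Real.log d ≤ Real.log d * Real.log ((m : ℝ) + 1) := by nlinarith
    nlinarith
  gcongr

/-- the average of a power of `n / φ(n)` over sparse families -/
theorem momF' (A d : ℕ) (hd : 1 ≤ d) : ∃ C : ℝ, 0 < C ∧ ∀ᶠ X : ℕ in atTop, ∀ (ι : Type) (T : Finset ι)
    (φ : ι → ℕ) (F : ℕ), (∀ t ∈ T, 1 ≤ φ t ∧ φ t ≤ X) → (∀ v, #(T.filter (fun t => φ t = v)) ≤ F) →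
    (F : ℝ) * X ≤ #T * Real.log X ^ A →
    ∑ t ∈ T, rat (φ t) ^ d ≤ C * #T * Real.log (Real.log (Real.log X)) ^ d := by
  classical
  obtain ⟨C, hC, h⟩ := momF d hd
  have hC0 : 0 < C := by linarith
  refine ⟨2 ^ d * (Real.exp (A + 1) * (2 * C) ^ d), by positivity, ?_⟩
  have hlogt : Tendsto (fun x : ℕ => Real.log (x : ℝ)) atTop atTop :=
    Real.tendsto_log_atTop.comp tendsto_natCast_atTop_atTop
  have hll : Tendsto (fun x : ℕ => Real.log (Real.log (x : ℝ))) atTop atTop :=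
    Real.tendsto_log_atTop.comp hlogt
  filter_upwards [hlogt.eventually_ge_atTop 2, hll.eventually_ge_atTop 4] with X h1 h2
  intro ι T φ F hφ hfib hX
  set L := Real.log (X : ℝ) with hL
  set l := Real.log L with hl
  set k := ⌈l⌉₊ with hk
  have hk1 : l ≤ k := Nat.le_ceil l
  have hk2 : (k : ℝ) < l + 1 := Nat.ceil_lt_add_one (by linarith)
  have hk3 : 3 ≤ k := by
    have : (3 : ℝ) ≤ k := by linarith
    exact_mod_cast this
  have hL0 : 0 < L := by linarith
  have hE : (F : ℝ) * X ≤ Real.exp (A + 1) ^ k * #T := by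
    have e1 : Real.exp ((A : ℝ) + 1) ^ k = Real.exp (((A : ℝ) + 1) * k) := by
      rw [← Real.exp_nat_mul]; ring_nf
    have e2 : L ^ (A + 1) ≤ Real.exp (((A : ℝ) + 1) * k) := by
      have e3 : L ^ (A + 1) = Real.exp (((A : ℝ) + 1) * l) := by
        rw [hl]
        have : ((A : ℝ) + 1) * Real.log L = ((A + 1 : ℕ) : ℝ) * Real.log L := by push_cast; ring
        rw [this, Real.exp_nat_mul, Real.exp_log hL0]
      rw [e3]
      apply Real.exp_le_exp.2
      have : (0 : ℝ) ≤ (A : ℝ) + 1 := by positivity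
      nlinarith
    have hT0 : (0 : ℝ) ≤ #T := Nat.cast_nonneg _
    have hLA : (0 : ℝ) ≤ L ^ A := by positivity
    calc (F : ℝ) * X ≤ 1 * (#T * L ^ A) := by linarith
      _ ≤ L * (#T * L ^ A) := by
          apply mul_le_mul_of_nonneg_right (by linarith) (by positivity)
      _ = L ^ (A + 1) * #T := by ring
      _ ≤ Real.exp ((A : ℝ) + 1) ^ k * #T := by
          rw [e1]
          exact mul_le_mul_of_nonneg_right e2 hT0
  have h3 := h k X F ι T φ (Real.exp (A + 1)) hk3 hφ hfib (Real.exp_pos _).le hE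
  have hlogk : Real.log k ≤ 2 * Real.log l := by
    have e1 : (k : ℝ) ≤ l ^ 2 := by nlinarith
    have e2 : (0 : ℝ) < k := by
      have : 0 < k := by omega
      exact_mod_cast this
    calc Real.log k ≤ Real.log (l ^ 2) := Real.log_le_log e2 e1
      _ = 2 * Real.log l := by rw [Real.log_pow]; norm_num
  have hlogk0 : 0 ≤ Real.log k := Real.log_natCast_nonneg k
  have hT0 : (0 : ℝ) ≤ #T := Nat.cast_nonneg _
  calc ∑ t ∈ T, rat (φ t) ^ d ≤ ∑ t ∈ T, 2 ^ d * gg (φ t) ^ d := by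
        apply sum_le_sum
        intro t ht
        rw [← mul_pow]
        exact pow_le_pow_left₀ (rat_nonneg' _) (rat_le_gg _ (hφ t ht).1) d
    _ = 2 ^ d * ∑ t ∈ T, gg (φ t) ^ d := by rw [mul_sum]
    _ ≤ 2 ^ d * (Real.exp (A + 1) * (C * Real.log k) ^ d * #T) := by
        apply mul_le_mul_of_nonneg_left h3 (by positivity)
    _ ≤ 2 ^ d * (Real.exp (A + 1) * (C * (2 * Real.log l)) ^ d * #T) := by
        gcongr
    _ = 2 ^ d * (Real.exp (A + 1) * (2 * C) ^ d) * #T * Real.log l ^ d := by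
        rw [show C * (2 * Real.log l) = (2 * C) * Real.log l by ring, mul_pow]
        ring

end Pool.Agent.Helper12.ST
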