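import Pool.Agent.Helper12.CS.Main
import Pool.Agent.Helper12.ST.Mom
import Pool.Agent.Helper12.ST.HL

/-! The second moment argument for families of tuples. -/

set_option autoImplicit false

open Finset Filter Topology

namespace Pool.Agent.Helper12.ST

open Pool.Agent.H646 (rat)
open Pool.Agent.Helper12.CS (rat_nonneg' pz tb)

open Classical in
/-- the number of the `h ≤ H` which shift the tuple `e` into the primes -/
noncomputable def NT {J : Type} (H : ℕ) (e : J → ℕ) : ℕ := ((Icc 1 H).filter fun h => ∀ j, (h + e j).Prime).card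

/-- the number of the `h ≤ H` which shift both tuples into the primes -/
noncomputable def NT2 {k : ℕ} (H : ℕ) (e f : Fin k → ℕ) : ℕ := NT H (Sum.elim e f)

lemma mem_NT {J : Type} (H : ℕ) (e : J → ℕ) (h : ℕ) [DecidablePred fun h => ∀ j, (h + e j).Prime] :
    h ∈ ((Icc 1 H).filter fun h => ∀ j, (h + e j).Prime) ↔ h ∈ Icc 1 H ∧ ∀ j, (h + e j).Prime := mem_filter

lemma NT2_le {k : ℕ} (H : ℕ) (e f : Fin k → ℕ) : NT2 H e f ≤ NT H e := by
  unfold NT2 NT
  apply card_le_card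
  intro h hh
  simp only [mem_NT] at hh ⊢
  exact ⟨hh.1, fun j => hh.2 (Sum.inl j)⟩

/-- the sieve bound for tuples indexed by any finite type -/
theorem tbJ (J : Type) [Fintype J] [DecidableEq J] (hJ : 2 ≤ Fintype.card J) : ∃ C : ℝ, 0 < C ∧ ∃ M : ℕ, 1 ≤ M ∧
    ∀ᶠ x : ℕ in atTop, ∀ e : J → ℕ, Function.Injective e →
      (NT x e : ℝ) ≤ C * x / (Real.log x) ^ (Fintype.card J) *
        ∑ q ∈ (univ : Finset (J × J)) with q.1 ≠ q.2, rat (Nat.dist (e q.1) (e q.2)) ^ M := by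
  classical
  obtain ⟨C, hC, M, hM, h⟩ := tb (Fintype.card J) hJ
  refine ⟨C, hC, M, hM, ?_⟩
  filter_upwards [h] with x hx
  intro e he
  set σ := Fintype.equivFin J with hσ
  have h1 := hx (e ∘ σ.symm) (he.comp σ.symm.injective)
  have hset : NT x e = #{n ∈ Icc 1 x | ∀ j, (n + (e ∘ σ.symm) j).Prime} := by
    unfold NT
    apply congrArg Finset.card
    ext n
    simp only [mem_NT]
    apply and_congr_right
    intro _
    constructor
    · intro h j; exact h _
    · intro h j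
      have := h (σ j)
      simpa using this
  rw [hset]
  refine h1.trans (le_of_eq ?_)
  congr 1
  apply Finset.sum_nbij' (fun q => (σ.symm q.1, σ.symm q.2)) (fun q => (σ q.1, σ q.2))
  · intro q hq
    rw [mem_filter] at hq ⊢
    exact ⟨mem_univ _, fun h => hq.2 (σ.symm.injective h)⟩
  · intro q hq
    rw [mem_filter] at hq ⊢
    exact ⟨mem_univ _, fun h => hq.2 (σ.injective h)⟩
  · intro q _; simp
  · intro q _; simp
  · intro q _; rfl

lemma ev2 (k A : ℕ) : ∀ᶠ H : ℕ in atTop, 1 ≤ Real.log (Real.log (Real.log H)) ∧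
    4 ≤ Real.log H ∧ 2 * (k ^ 2 + 1) * Real.log H ^ (A + k) ≤ H := by
  have hlogt : Tendsto (fun x : ℕ => Real.log (x : ℝ)) atTop atTop :=
    Real.tendsto_log_atTop.comp tendsto_natCast_atTop_atTop
  have hlll : Tendsto (fun x : ℕ => Real.log (Real.log (Real.log (x : ℝ)))) atTop atTop :=
    Real.tendsto_log_atTop.comp (Real.tendsto_log_atTop.comp hlogt)
  have hk : (0 : ℝ) < 1 / (2 * (k ^ 2 + 1)) := by positivity
  have h3 : ∀ᶠ x : ℝ in atTop, ‖Real.log x ^ (A + k)‖ ≤ 1 / (2 * (k ^ 2 + 1)) * ‖x‖ := by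
    have h4 := (isLittleO_log_rpow_rpow_atTop ((A + k : ℕ) : ℝ) (s := 1) one_pos)
    have h5 := h4.bound hk
    filter_upwards [h5] with x hx
    rw [Real.rpow_natCast, Real.rpow_one] at hx
    exact hx
  have h4 := tendsto_natCast_atTop_atTop.eventually h3
  filter_upwards [hlogt.eventually_ge_atTop 4, hlll.eventually_ge_atTop 1, h4] with H g1 g2 g3
  refine ⟨g2, g1, ?_⟩
  rw [Real.norm_of_nonneg (by positivity), Real.norm_of_nonneg (by positivity)] at g3
  have h6 : (0 : ℝ) < 2 * (k ^ 2 + 1) := by positivity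
  calc 2 * ((k : ℝ) ^ 2 + 1) * Real.log H ^ (A + k) ≤ 2 * (k ^ 2 + 1) * (1 / (2 * (k ^ 2 + 1)) * H) :=
        mul_le_mul_of_nonneg_left g3 h6.le
    _ = H := by field_simp

/-- the second moment -/
theorem secondK (k A : ℕ) (hk : 2 ≤ k) : ∃ C : ℝ, 0 < C ∧ ∃ M : ℕ, ∀ᶠ H : ℕ in atTop, ∀ (ι : Type)
    (T : Finset ι) (a : ι → Fin k → ℕ) (F : ℕ),
    (∀ t ∈ T, Function.Injective (a t) ∧ ∀ i, a t i ≤ H) → (∀ i v, #{t ∈ T | a t i = v} ≤ F) →
    (∀ i j, i ≠ j → ∀ v, #{t ∈ T | Nat.dist (a t i) (a t j) = v} ≤ F) → (F : ℝ) * H ≤ #T * Real.log H ^ A →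
    ∑ t ∈ T, ∑ t' ∈ T, (NT2 H (a t) (a t') : ℝ) ≤
      C * H * #T ^ 2 * Real.log (Real.log (Real.log H)) ^ M / Real.log H ^ (2 * k) := by
  classical
  obtain ⟨C1, hC1, M1, hM1, h1⟩ := tbJ (Fin k) (by simpa using hk)
  obtain ⟨C2, hC2, M2, hM2, h2⟩ := tbJ (Fin k ⊕ Fin k) (by simp; omega)
  obtain ⟨D1, hD1, m1⟩ := momF' A M1 hM1
  obtain ⟨D2, hD2, m2⟩ := momF' A M2 hM2
  obtain ⟨D3, hD3, m3⟩ := momF' (A + 1) M2 hM2
  refine ⟨k ^ 2 * (C1 * (k ^ 2 * D1)) + C2 * (4 * k ^ 2 * (D2 + D3)), by positivity, M1 + M2, ?_⟩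
  filter_upwards [h1, h2, m1, m2, m3, ev2 k A] with H h1 h2 m1 m2 m3 ⟨hl3, hl1, hbig⟩
  intro ι T a F hT ha hd hFT
  rw [Fintype.card_fin] at h1
  rw [Fintype.card_sum, Fintype.card_fin, ← two_mul] at h2
  set L := Real.log (H : ℝ) with hL
  set W := Real.log (Real.log L) with hW
  have hL0 : 0 < L := by linarith
  have hLA : 0 < L ^ A := by positivity
  have hk0 : (0 : ℝ) < k := by
    have : 0 < k := by omega
    exact_mod_cast this
  have hH0 : (0 : ℝ) < H := by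
    have : 0 < 2 * ((k : ℝ) ^ 2 + 1) * L ^ (A + k) := by positivity
    linarith
  have hT0 : (0 : ℝ) ≤ #T := Nat.cast_nonneg _
  have hF0 : (0 : ℝ) ≤ F := Nat.cast_nonneg _
  have hW0 : 0 < W := by linarith
  -- the size of the fibres
  have hFk : 2 * (k ^ 2 + 1) * L ^ k * F ≤ (#T : ℝ) := by
    have e1 : (2 * (k ^ 2 + 1) * L ^ k * F) * L ^ A ≤ (#T : ℝ) * L ^ A := by
      calc (2 * ((k : ℝ) ^ 2 + 1) * L ^ k * (F : ℝ)) * L ^ A =
            (2 * ((k : ℝ) ^ 2 + 1) * L ^ (A + k)) * (F : ℝ) := by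
            rw [pow_add]; ring
        _ ≤ (H : ℝ) * F := mul_le_mul_of_nonneg_right hbig hF0
        _ = (F : ℝ) * H := mul_comm _ _
        _ ≤ _ := hFT
    exact le_of_mul_le_mul_right e1 hLA
  have hLk1 : 1 ≤ L ^ k := one_le_pow₀ (by linarith)
  have hFk2 : 2 * (k ^ 2 * F) ≤ (#T : ℝ) := by
    refine le_trans ?_ hFk
    have e1 : (k : ℝ) ^ 2 * F ≤ (k ^ 2 + 1) * L ^ k * F := by
      apply mul_le_mul_of_nonneg_right _ hF0
      have : 0 ≤ (k : ℝ) ^ 2 := by positivity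
      nlinarith
    linarith
  -- the exceptional indices
  set E : ι → Finset ι := fun t => {t' ∈ T | ∃ i j, a t i = a t' j} with hE
  set G : ι → Finset ι := fun t => {t' ∈ T | ¬ ∃ i j, a t i = a t' j} with hG
  have hEk : ∀ t, #(E t) ≤ k ^ 2 * F := by
    intro t
    have e1 : E t ⊆ (univ : Finset (Fin k × Fin k)).biUnion fun q => {t' ∈ T | a t' q.2 = a t q.1} := by
      intro t' ht'
      obtain ⟨h1, i, j, h2⟩ := mem_filter.1 ht'
      exact mem_biUnion.2 ⟨(i, j), mem_univ _, mem_filter.2 ⟨h1, h2.symm⟩⟩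
    calc #(E t) ≤ _ := card_le_card e1
      _ ≤ ∑ q : Fin k × Fin k, #{t' ∈ T | a t' q.2 = a t q.1} := card_biUnion_le
      _ ≤ ∑ _q : Fin k × Fin k, F := sum_le_sum fun q _ => ha _ _
      _ = k ^ 2 * F := by
        rw [sum_const, card_univ, Fintype.card_prod, Fintype.card_fin, smul_eq_mul]
        ring
  have hGT : ∀ t, #(G t) ≤ #T := fun t => card_filter_le _ _
  have hEG : ∀ t, #(E t) + #(G t) = #T := fun t => card_filter_add_card_filter_not _
  have hGH : ∀ t, ((2 * F : ℕ) : ℝ) * H ≤ #(G t) * L ^ (A + 1) := by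
    intro t
    have e1 : (#T : ℝ) ≤ 2 * #(G t) := by
      have e2 : (#(E t) : ℝ) + #(G t) = #T := by exact_mod_cast hEG t
      have e3 : (#(E t) : ℝ) ≤ k ^ 2 * F := by exact_mod_cast hEk t
      linarith
    have hG0 : (0 : ℝ) ≤ #(G t) := Nat.cast_nonneg _
    push_cast
    calc 2 * (F : ℝ) * H = 2 * (F * H) := by ring
      _ ≤ 2 * (#T * L ^ A) := by linarith
      _ ≤ 2 * ((2 * #(G t)) * L ^ A) := by gcongr
      _ = 4 * (#(G t) * L ^ A) := by ring
      _ ≤ L * (#(G t) * L ^ A) := mul_le_mul_of_nonneg_right hl1 (by positivity)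
      _ = _ := by ring
  have hdist : ∀ t ∈ T, ∀ i j, i ≠ j → 1 ≤ Nat.dist (a t i) (a t j) ∧ Nat.dist (a t i) (a t j) ≤ H := by
    intro t ht i j hij
    obtain ⟨k1, k2⟩ := hT t ht
    have k3 : a t i ≠ a t j := fun h => hij (k1 h)
    have k4 := k2 i
    have k5 := k2 j
    unfold Nat.dist
    omega
  -- own sums
  have own1 : ∀ i j, i ≠ j → ∑ t ∈ T, rat (Nat.dist (a t i) (a t j)) ^ M1 ≤ D1 * #T * W ^ M1 := fun i j hij =>
    m1 ι T (fun t => Nat.dist (a t i) (a t j)) F (fun t ht => hdist t ht i j hij) (hd i j hij) hFT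
  have own2 : ∀ i j, i ≠ j → ∑ t ∈ T, rat (Nat.dist (a t i) (a t j)) ^ M2 ≤ D2 * #T * W ^ M2 := fun i j hij =>
    m2 ι T (fun t => Nat.dist (a t i) (a t j)) F (fun t ht => hdist t ht i j hij) (hd i j hij) hFT
  -- mixed sums
  have mix : ∀ t ∈ T, ∀ i j, ∑ t' ∈ G t, rat (Nat.dist (a t i) (a t' j)) ^ M2 ≤ D3 * #T * W ^ M2 := by
    intro t ht i j
    refine (m3 ι (G t) (fun t' => Nat.dist (a t i) (a t' j)) (2 * F) ?_ ?_ (hGH t)).trans ?_
    · intro t' ht'
      obtain ⟨k1, k2⟩ := mem_filter.1 ht'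
      have k3 := (hT t ht).2 i
      have k4 := (hT t' k1).2 j
      have k5 : a t i ≠ a t' j := fun h => k2 ⟨i, j, h⟩
      simp only [Nat.dist]
      omega
    · intro v
      have e1 : {t' ∈ G t | Nat.dist (a t i) (a t' j) = v} ⊆
          {t' ∈ T | a t' j = a t i + v} ∪ {t' ∈ T | a t' j = a t i - v} := by
        intro t' ht'
        obtain ⟨k1, k2⟩ := mem_filter.1 ht'
        have k3 := (mem_filter.1 k1).1
        rw [mem_union, mem_filter, mem_filter]
        unfold Nat.dist at k2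
        by_cases k4 : a t i ≤ a t' j
        · exact Or.inl ⟨k3, by omega⟩
        · exact Or.inr ⟨k3, by omega⟩
      have e2 := (card_le_card e1).trans (card_union_le _ _)
      have e3 := ha j (a t i + v)
      have e4 := ha j (a t i - v)
      omega
    · have : (#(G t) : ℝ) ≤ #T := by exact_mod_cast hGT t
      gcongr
  -- the near part
  have near : ∑ t ∈ T, ∑ t' ∈ E t, (NT2 H (a t) (a t') : ℝ) ≤
      k ^ 2 * (C1 * (k ^ 2 * D1)) * H * #T ^ 2 * W ^ M1 / L ^ (2 * k) := by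
    have e0 : ∑ t ∈ T, ∑ q ∈ (univ : Finset (Fin k × Fin k)) with q.1 ≠ q.2,
        rat (Nat.dist (a t q.1) (a t q.2)) ^ M1 ≤ k ^ 2 * (D1 * #T * W ^ M1) := by
      rw [sum_comm]
      calc ∑ q ∈ (univ : Finset (Fin k × Fin k)) with q.1 ≠ q.2, ∑ t ∈ T,
            rat (Nat.dist (a t q.1) (a t q.2)) ^ M1
          ≤ ∑ q ∈ (univ : Finset (Fin k × Fin k)) with q.1 ≠ q.2, D1 * #T * W ^ M1 :=
            sum_le_sum fun q hq => own1 _ _ (mem_filter.1 hq).2
        _ ≤ ∑ _q : Fin k × Fin k, D1 * #T * W ^ M1 :=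
            sum_le_sum_of_subset_of_nonneg (filter_subset _ _) (fun _ _ _ => by positivity)
        _ = k ^ 2 * (D1 * #T * W ^ M1) := by
            rw [sum_const, card_univ, Fintype.card_prod, Fintype.card_fin, nsmul_eq_mul]
            push_cast
            ring
    calc ∑ t ∈ T, ∑ t' ∈ E t, (NT2 H (a t) (a t') : ℝ)
        ≤ ∑ t ∈ T, ∑ t' ∈ E t, (NT H (a t) : ℝ) := by
          apply sum_le_sum
          intro t _
          apply sum_le_sum
          intro t' _
          exact_mod_cast NT2_le _ _ _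
      _ ≤ ∑ t ∈ T, (k ^ 2 * F) * (C1 * H / L ^ k * ∑ q ∈ (univ : Finset (Fin k × Fin k)) with q.1 ≠ q.2,
            rat (Nat.dist (a t q.1) (a t q.2)) ^ M1) := by
          apply sum_le_sum
          intro t ht
          rw [sum_const, nsmul_eq_mul]
          have e1 : (#(E t) : ℝ) ≤ k ^ 2 * F := by exact_mod_cast hEk t
          exact mul_le_mul e1 (h1 _ (hT t ht).1) (Nat.cast_nonneg _) (by positivity)
      _ = (k ^ 2 * F) * (C1 * H / L ^ k * ∑ t ∈ T, ∑ q ∈ (univ : Finset (Fin k × Fin k)) with q.1 ≠ q.2,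
            rat (Nat.dist (a t q.1) (a t q.2)) ^ M1) := by
          rw [mul_sum, mul_sum]
      _ ≤ (k ^ 2 * F) * (C1 * H / L ^ k * (k ^ 2 * (D1 * #T * W ^ M1))) := by
          apply mul_le_mul_of_nonneg_left _ (by positivity)
          exact mul_le_mul_of_nonneg_left e0 (by positivity)
      _ = k ^ 2 * (C1 * (k ^ 2 * D1)) * H * #T * (L ^ k * F) * W ^ M1 / L ^ (2 * k) := by
          rw [show 2 * k = k + k by ring, pow_add]
          field_simp
      _ ≤ k ^ 2 * (C1 * (k ^ 2 * D1)) * H * #T * #T * W ^ M1 / L ^ (2 * k) := by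
          have e1 : L ^ k * F ≤ #T := by
            refine le_trans ?_ hFk
            have : 0 ≤ L ^ k * F := by positivity
            have : 0 ≤ (k : ℝ) ^ 2 * (L ^ k * F) := by positivity
            nlinarith
          gcongr
      _ = _ := by ring
  -- the far part
  have far : ∑ t ∈ T, ∑ t' ∈ G t, (NT2 H (a t) (a t') : ℝ) ≤
      C2 * (4 * k ^ 2 * (D2 + D3)) * H * #T ^ 2 * W ^ M2 / L ^ (2 * k) := by
    have e0 : ∀ t ∈ T, ∀ t' ∈ G t, (NT2 H (a t) (a t') : ℝ) ≤ C2 * H / L ^ (2 * k) *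
        ∑ q ∈ (univ : Finset ((Fin k ⊕ Fin k) × (Fin k ⊕ Fin k))) with q.1 ≠ q.2,
          rat (Nat.dist (Sum.elim (a t) (a t') q.1) (Sum.elim (a t) (a t') q.2)) ^ M2 := by
      intro t ht t' ht'
      obtain ⟨k1, k2⟩ := mem_filter.1 ht'
      have hinj : Function.Injective (Sum.elim (a t) (a t')) := by
        apply Function.Injective.sumElim (hT t ht).1 (hT t' k1).1
        intro i j h
        exact k2 ⟨i, j, h⟩
      exact h2 _ hinj
    have e2 : ∀ q ∈ (univ : Finset ((Fin k ⊕ Fin k) × (Fin k ⊕ Fin k))).filter (fun q => q.1 ≠ q.2),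
        ∑ t ∈ T, ∑ t' ∈ G t, rat (Nat.dist (Sum.elim (a t) (a t') q.1) (Sum.elim (a t) (a t') q.2)) ^ M2 ≤
          (D2 + D3) * #T ^ 2 * W ^ M2 := by
      intro q hq
      have hq := (mem_filter.1 hq).2
      have hb2 : D2 * #T ^ 2 * W ^ M2 ≤ (D2 + D3) * #T ^ 2 * W ^ M2 := by
        gcongr
        linarith
      have hb3 : D3 * #T ^ 2 * W ^ M2 ≤ (D2 + D3) * #T ^ 2 * W ^ M2 := by
        gcongr
        linarith
      obtain ⟨q1, q2⟩ := q
      rcases q1 with i | i <;> rcases q2 with j | j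
      · have hij : i ≠ j := fun h => hq (by rw [h])
        refine le_trans ?_ hb2
        simp only [Sum.elim_inl]
        calc ∑ t ∈ T, ∑ t' ∈ G t, rat (Nat.dist (a t i) (a t j)) ^ M2
            ≤ ∑ t ∈ T, #T * rat (Nat.dist (a t i) (a t j)) ^ M2 := by
              apply sum_le_sum
              intro t _
              rw [sum_const, nsmul_eq_mul]
              apply mul_le_mul_of_nonneg_right _ (pow_nonneg (rat_nonneg' _) _)
              exact_mod_cast hGT t
          _ = #T * ∑ t ∈ T, rat (Nat.dist (a t i) (a t j)) ^ M2 := by rw [mul_sum]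
          _ ≤ #T * (D2 * #T * W ^ M2) := mul_le_mul_of_nonneg_left (own2 i j hij) hT0
          _ = _ := by ring
      · refine le_trans ?_ hb3
        simp only [Sum.elim_inl, Sum.elim_inr]
        calc ∑ t ∈ T, ∑ t' ∈ G t, rat (Nat.dist (a t i) (a t' j)) ^ M2
            ≤ ∑ t ∈ T, D3 * #T * W ^ M2 := sum_le_sum fun t ht => mix t ht i j
          _ = _ := by
              rw [sum_const, nsmul_eq_mul]
              ring
      · refine le_trans ?_ hb3
        simp only [Sum.elim_inl, Sum.elim_inr]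
        calc ∑ t ∈ T, ∑ t' ∈ G t, rat (Nat.dist (a t' i) (a t j)) ^ M2
            ≤ ∑ t ∈ T, D3 * #T * W ^ M2 := sum_le_sum fun t ht => by
              simp only [Nat.dist_comm (a _ i) (a t j)]
              exact mix t ht j i
          _ = _ := by
              rw [sum_const, nsmul_eq_mul]
              ring
      · have hij : i ≠ j := fun h => hq (by rw [h])
        refine le_trans ?_ hb2
        simp only [Sum.elim_inr]
        calc ∑ t ∈ T, ∑ t' ∈ G t, rat (Nat.dist (a t' i) (a t' j)) ^ M2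
            ≤ ∑ t ∈ T, ∑ t' ∈ T, rat (Nat.dist (a t' i) (a t' j)) ^ M2 := by
              apply sum_le_sum
              intro t _
              exact sum_le_sum_of_subset_of_nonneg (filter_subset _ _)
                (fun _ _ _ => pow_nonneg (rat_nonneg' _) _)
          _ ≤ ∑ t ∈ T, D2 * #T * W ^ M2 := sum_le_sum fun t _ => own2 i j hij
          _ = _ := by
              rw [sum_const, nsmul_eq_mul]
              ring
    calc ∑ t ∈ T, ∑ t' ∈ G t, (NT2 H (a t) (a t') : ℝ)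
        ≤ ∑ t ∈ T, ∑ t' ∈ G t, C2 * H / L ^ (2 * k) *
          ∑ q ∈ (univ : Finset ((Fin k ⊕ Fin k) × (Fin k ⊕ Fin k))) with q.1 ≠ q.2,
            rat (Nat.dist (Sum.elim (a t) (a t') q.1) (Sum.elim (a t) (a t') q.2)) ^ M2 :=
          sum_le_sum fun t ht => sum_le_sum fun t' ht' => e0 t ht t' ht'
      _ = C2 * H / L ^ (2 * k) * ∑ q ∈ (univ : Finset ((Fin k ⊕ Fin k) × (Fin k ⊕ Fin k))) with q.1 ≠ q.2,
            ∑ t ∈ T, ∑ t' ∈ G t,
            rat (Nat.dist (Sum.elim (a t) (a t') q.1) (Sum.elim (a t) (a t') q.2)) ^ M2 := by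
          simp only [← mul_sum]
          congr 1
          exact (sum_congr rfl fun t _ => sum_comm).trans sum_comm
      _ ≤ C2 * H / L ^ (2 * k) * ∑ q ∈ (univ : Finset ((Fin k ⊕ Fin k) × (Fin k ⊕ Fin k))) with q.1 ≠ q.2,
            (D2 + D3) * #T ^ 2 * W ^ M2 := by
          apply mul_le_mul_of_nonneg_left _ (by positivity)
          exact sum_le_sum e2
      _ ≤ C2 * H / L ^ (2 * k) * ∑ _q : (Fin k ⊕ Fin k) × (Fin k ⊕ Fin k), (D2 + D3) * #T ^ 2 * W ^ M2 := by
          apply mul_le_mul_of_nonneg_left _ (by positivity)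
          exact sum_le_sum_of_subset_of_nonneg (filter_subset _ _) (fun _ _ _ => by positivity)
      _ = _ := by
          rw [sum_const, card_univ, Fintype.card_prod, Fintype.card_sum, Fintype.card_fin, nsmul_eq_mul]
          push_cast
          ring
  have hsplit : ∀ t ∈ T, ∑ t' ∈ T, (NT2 H (a t) (a t') : ℝ) =
      ∑ t' ∈ E t, (NT2 H (a t) (a t') : ℝ) + ∑ t' ∈ G t, (NT2 H (a t) (a t') : ℝ) :=
    fun t _ => (sum_filter_add_sum_filter_not T _ _).symm
  rw [sum_congr rfl hsplit, sum_add_distrib]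
  have hW2 : W ^ M1 ≤ W ^ (M1 + M2) := pow_le_pow_right₀ hl3 (by omega)
  have hW4 : W ^ M2 ≤ W ^ (M1 + M2) := pow_le_pow_right₀ hl3 (by omega)
  have near' : k ^ 2 * (C1 * (k ^ 2 * D1)) * H * #T ^ 2 * W ^ M1 / L ^ (2 * k) ≤
      k ^ 2 * (C1 * (k ^ 2 * D1)) * H * #T ^ 2 * W ^ (M1 + M2) / L ^ (2 * k) := by
    gcongr
  have far' : C2 * (4 * k ^ 2 * (D2 + D3)) * H * #T ^ 2 * W ^ M2 / L ^ (2 * k) ≤
      C2 * (4 * k ^ 2 * (D2 + D3)) * H * #T ^ 2 * W ^ (M1 + M2) / L ^ (2 * k) := by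
    gcongr
  have e9 : (k ^ 2 * (C1 * (k ^ 2 * D1)) + C2 * (4 * k ^ 2 * (D2 + D3))) * H * #T ^ 2 * W ^ (M1 + M2) /
      L ^ (2 * k) = k ^ 2 * (C1 * (k ^ 2 * D1)) * H * #T ^ 2 * W ^ (M1 + M2) / L ^ (2 * k) +
      C2 * (4 * k ^ 2 * (D2 + D3)) * H * #T ^ 2 * W ^ (M1 + M2) / L ^ (2 * k) := by ring
  rw [e9]
  linarith

end Pool.Agent.Helper12.ST
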